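import Pool.Agent.Helper3.T5.Defs
import Pool.Agent.Helper22.HW.Keys

/-!
# T5, block J0: level-1 freshness (J4)

`main_tuple`: the probability of `m + 1` hits with pairwise different key families on both sides
and prescribed sums of the two codes.
-/

namespace Pool.Agent.Helper53.T5

open Finset Pool.Agent.Helper27.T4 Pool.Agent.Helper29.T4 Pool.Agent.Helper22.HW
  Pool.Agent.Helper22.SL Pool.Agent.Helper3.T5

variable {ι κ : Type*} [Fintype ι] [DecidableEq ι] [DecidableEq κ] {M : MP ι κ} {Mk : κ → ℕ}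

omit [DecidableEq κ] in
/-- the value of a fresh key, upper state -/
theorem key_val (hM : M.Ok Mk) (w : κ → ℕ) {x : ι → ℕ} (hx : x ∈ M.X)
    (hw : w (M.key M.R x) < Mk (M.key M.R x)) :
    w (M.key M.R x) = (((M.cd hM w x : ℕ) : ZMod (M.p M.R ^ M.e M.R)) -
      Lg (M.p M.R) (M.e M.R) (x M.R)).val := by
  have h2 : ((M.cd hM w x : ℕ) : ZMod (M.p M.R ^ M.e M.R)) =
      Lg (M.p M.R) (M.e M.R) (x M.R) + M.ρ w M.R x :=
    cv_cast_comp hM.prime hM.inj M.e (fun i => Lg (M.p i) (M.e i) (x i) + M.ρ w i x) M.R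
  rw [h2, add_sub_cancel_left, MP.ρ]
  rw [hM.size x hx] at hw
  exact (ZMod.val_natCast_of_lt hw).symm

omit [DecidableEq κ] in
/-- the value of a fresh key, lower state -/
theorem key_val' (hM : M.Ok Mk) (w : κ → ℕ) {x : ι → ℕ} (hx : x ∈ M.X')
    (hw : w (M.key' M.R x) < Mk (M.key' M.R x)) :
    w (M.key' M.R x) = (((M.cd' hM w x : ℕ) : ZMod (M.p M.R ^ M.e' M.R)) -
      Lg (M.p M.R) (M.e' M.R) (x M.R)).val := by
  have h2 : ((M.cd' hM w x : ℕ) : ZMod (M.p M.R ^ M.e' M.R)) =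
      Lg (M.p M.R) (M.e' M.R) (x M.R) + M.ρ' w M.R x :=
    cv_cast_comp hM.prime hM.inj M.e' (fun i => Lg (M.p i) (M.e' i) (x i) + M.ρ' w i x) M.R
  have he : M.e' M.R = M.e M.R := by
    have h1 := hM.ce' M.R
    have h3 := hM.ee M.R
    have h4 := hM.statR
    omega
  rw [h2, add_sub_cancel_left, MP.ρ']
  rw [hM.size' x hx, MP.q, ← he] at hw
  exact (ZMod.val_natCast_of_lt hw).symm

omit [DecidableEq κ] in
/-- a hit gives a candidate -/
theorem mem_cand (hM : M.Ok Mk) (w w0 : κ → ℕ)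
    (hw : ∀ x ∈ M.X, ∀ i, i ≠ M.R → w (M.key i x) = w0 (M.key i x))
    (hw' : ∀ x ∈ M.X', ∀ i, i ≠ M.R → w (M.key' i x) = w0 (M.key' i x))
    {x x' : ι → ℕ} (hx : x ∈ M.X) (hx' : x' ∈ M.X') {T : ℕ}
    (hT : M.cd hM w x + M.cd' hM w x' = T) :
    ((x, x'), (M.cd hM w x, M.cd' hM w x')) ∈ M.cand w0 T := by
  classical
  unfold MP.cand
  rw [mem_filter, mem_product, mem_product, mem_product, mem_range, mem_range]
  refine ⟨⟨⟨hx, hx'⟩, cv_lt hM.prime hM.inj M.e _, cv_lt hM.prime hM.inj M.e' _⟩, hT, ?_, ?_⟩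
  · intro i hi
    have h2 : ((M.cd hM w x : ℕ) : ZMod (M.p i ^ M.e i)) =
      Lg (M.p i) (M.e i) (x i) + M.ρ w i x :=
      cv_cast_comp hM.prime hM.inj M.e (fun i => Lg (M.p i) (M.e i) (x i) + M.ρ w i x) i
    rw [h2, MP.ρ, MP.ρ, hw x hx i hi]
  · intro i hi
    have h2 : ((M.cd' hM w x' : ℕ) : ZMod (M.p i ^ M.e' i)) =
      Lg (M.p i) (M.e' i) (x' i) + M.ρ' w i x' :=
      cv_cast_comp hM.prime hM.inj M.e' (fun i => Lg (M.p i) (M.e' i) (x' i) + M.ρ' w i x') i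
    rw [h2, MP.ρ', MP.ρ', hw' x' hx' i hi]

/-- J4: **level-1 freshness**, the count of the candidates being given -/
theorem main_tuple (hM : M.Ok Mk) (hMk : ∀ k, 0 < Mk k) {K : Finset κ}
    (hK : ∀ x ∈ M.X, ∀ i, M.key i x ∈ K) (hK' : ∀ x ∈ M.X', ∀ i, M.key' i x ∈ K)
    (hcand : ∀ (w : κ → ℕ) (T : ℕ), ((M.cand w T).card : ℝ) ≤
      M.C * M.Lam * (M.q : ℝ) ^ 2 * ((M.Ne' : ℝ) / M.Ne + 1 / M.q))
    {β : Type*} (E : Finset β) (τ : β → ℕ) {ρ : ℝ} (hρ : 0 ≤ ρ)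
    (h : (E.card : ℝ) * (M.C * M.Lam * ((M.Ne' : ℝ) / M.Ne + 1 / M.q)) ≤ ρ) (m : ℕ) :
    PrG Mk K (fun w => ∃ T : Finset (((ι → ℕ) × (ι → ℕ)) × β), T.card = m + 1 ∧
      (∀ t ∈ T, t.1.1 ∈ M.X ∧ t.1.2 ∈ M.X' ∧ t.2 ∈ E ∧
        M.cd hM w t.1.1 + M.cd' hM w t.1.2 = τ t.2) ∧ M.Free T)
      ((M.q : ℝ) ^ 2 * ρ ^ (m + 1)) := by
  classical
  have hq0 : 0 < M.q := pow_pos (hM.prime M.R).pos _
  have hq : (0 : ℝ) < (M.q : ℝ) ^ 2 := by positivity
  set K1 : Finset κ := M.X.image (M.key M.R) ∪ M.X'.image (M.key' M.R) with hK1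
  have hK1K : K1 ⊆ K := by
    intro k hk
    rw [hK1, mem_union, mem_image, mem_image] at hk
    rcases hk with ⟨x, hx, rfl⟩ | ⟨x, hx, rfl⟩
    · exact hK x hx _
    · exact hK' x hx _
  have hkR : ∀ x ∈ M.X, M.key M.R x ∈ K1 := fun x hx =>
    mem_union_left _ (mem_image_of_mem _ hx)
  have hkR' : ∀ x ∈ M.X', M.key' M.R x ∈ K1 := fun x hx =>
    mem_union_right _ (mem_image_of_mem _ hx)
  have hnot : ∀ x, ∀ i, i ≠ M.R → M.key i x ∉ K1 := by
    intro x i hi hk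
    rw [hK1, mem_union, mem_image, mem_image] at hk
    rcases hk with ⟨y, _, hy⟩ | ⟨y, _, hy⟩
    · exact (hM.new i x y hi).1 hy.symm
    · exact hM.mix i x M.R y hy.symm
  have hnot' : ∀ x, ∀ i, i ≠ M.R → M.key' i x ∉ K1 := by
    intro x i hi hk
    rw [hK1, mem_union, mem_image, mem_image] at hk
    rcases hk with ⟨y, _, hy⟩ | ⟨y, _, hy⟩
    · exact hM.mix M.R y i x hy
    · exact (hM.new i x y hi).2 hy.symm
  have hKK : K \ (K \ K1) = K1 := by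
    ext k
    rw [mem_sdiff, mem_sdiff]
    constructor
    · intro hk
      by_contra hn
      exact hk.2 ⟨hk.1, hn⟩
    · intro hk
      exact ⟨hK1K hk, fun h => h.2 hk⟩
  refine PrG_cond (K0 := K \ K1) Finset.sdiff_subset (by positivity) ?_
  intro r0 _
  rw [hKK]
  set w0 : κ → ℕ := ext (K \ K1) r0 with hw0
  -- the values of the glued assignment
  have hg1 : ∀ w : κ → ℕ, ∀ k ∈ K1, glue (K \ K1) w0 w k = w k := fun w k hk =>
    glue_not_mem _ _ _ (fun hk' => (mem_sdiff.1 hk').2 hk)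
  have hg0 : ∀ w : κ → ℕ, ∀ x ∈ M.X, ∀ i, i ≠ M.R →
      glue (K \ K1) w0 w (M.key i x) = w0 (M.key i x) := fun w x hx i hi =>
    glue_mem _ _ _ (mem_sdiff.2 ⟨hK x hx i, hnot x i hi⟩)
  have hg0' : ∀ w : κ → ℕ, ∀ x ∈ M.X', ∀ i, i ≠ M.R →
      glue (K \ K1) w0 w (M.key' i x) = w0 (M.key' i x) := fun w x hx i hi =>
    glue_mem _ _ _ (mem_sdiff.2 ⟨hK' x hx i, hnot' x i hi⟩)
  -- the candidates
  set Cand : Finset (Σ _ : β, ((ι → ℕ) × (ι → ℕ)) × (ℕ × ℕ)) :=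
    E.sigma (fun t => M.cand w0 (τ t)) with hCand
  have hX : ∀ z ∈ Cand, z.2.1.1 ∈ M.X ∧ z.2.1.2 ∈ M.X' := by
    intro z hz
    rw [hCand, mem_sigma] at hz
    have h1 := hz.2
    unfold MP.cand at h1
    rw [mem_filter, mem_product, mem_product] at h1
    exact h1.1.1
  set fk : (Σ _ : β, ((ι → ℕ) × (ι → ℕ)) × (ℕ × ℕ)) → Finset K1 := fun z =>
    Finset.univ.filter (fun k : K1 => (k : κ) = M.key M.R z.2.1.1 ∨
      (k : κ) = M.key' M.R z.2.1.2) with hfk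
  set vl : (Σ _ : β, ((ι → ℕ) × (ι → ℕ)) × (ℕ × ℕ)) → K1 → ℕ := fun z k =>
    if (k : κ) = M.key M.R z.2.1.1 then
      (((z.2.2.1 : ℕ) : ZMod (M.p M.R ^ M.e M.R)) - Lg (M.p M.R) (M.e M.R) (z.2.1.1 M.R)).val
    else
      (((z.2.2.2 : ℕ) : ZMod (M.p M.R ^ M.e' M.R)) -
        Lg (M.p M.R) (M.e' M.R) (z.2.1.2 M.R)).val with hvl
  have hCard : (Cand.card : ℝ) ≤ (M.q : ℝ) ^ 2 * ρ := by
    have h1 : (Cand.card : ℝ) = ∑ t ∈ E, ((M.cand w0 (τ t)).card : ℝ) := by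
      rw [hCand, card_sigma]
      push_cast
      rfl
    rw [h1]
    refine (Finset.sum_le_sum (fun t _ => hcand w0 (τ t))).trans ?_
    rw [Finset.sum_const, nsmul_eq_mul]
    have h2 := mul_le_mul_of_nonneg_left h hq.le
    refine le_trans (le_of_eq ?_) h2
    ring
  rw [PrG_iff, mul_comm]
  refine le_trans (tuple_bound_set (fun k : K1 => Mk k) (fun k => hMk k) Cand
    (fun z ω => M.cd hM (glue (K \ K1) w0 (ext K1 ω)) z.2.1.1 = z.2.2.1 ∧
      M.cd' hM (glue (K \ K1) w0 (ext K1 ω)) z.2.1.2 = z.2.2.2) fk vl ?_ ρ ?_ m _ ?_) ?_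
  · -- the values are forced
    intro z hz ω hω hhit k hk
    have hωk : ω k < Mk k := by
      rw [Om, Fintype.mem_piFinset] at hω
      exact mem_range.1 (hω k)
    have hcomb : glue (K \ K1) w0 (ext K1 ω) (k : κ) = ω k := by
      rw [hg1 _ _ k.2, ext_mem ω k.2]
    rw [hfk] at hk
    simp only [mem_filter, mem_univ, true_and] at hk
    by_cases hk1 : (k : κ) = M.key M.R z.2.1.1
    · simp only [hvl, if_pos hk1]
      have h3 := key_val hM (glue (K \ K1) w0 (ext K1 ω)) (hX z hz).1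
        (by rw [← hk1, hcomb]; exact hωk)
      rw [← hk1, hcomb, hhit.1] at h3
      exact h3
    · have hk2 : (k : κ) = M.key' M.R z.2.1.2 := hk.resolve_left hk1
      simp only [hvl, if_neg hk1]
      have h3 := key_val' hM (glue (K \ K1) w0 (ext K1 ω)) (hX z hz).2
        (by rw [← hk2, hcomb]; exact hωk)
      rw [← hk2, hcomb, hhit.2] at h3
      exact h3
  · -- the weights
    have hw : ∀ z ∈ Cand, ∏ k ∈ fk z, ((Mk (k : κ) : ℝ))⁻¹ = ((M.q : ℝ) ^ 2)⁻¹ := by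
      intro z hz
      have h1 : fk z = {(⟨M.key M.R z.2.1.1, hkR _ (hX z hz).1⟩ : K1),
          (⟨M.key' M.R z.2.1.2, hkR' _ (hX z hz).2⟩ : K1)} := by
        ext k
        rw [hfk]
        simp only [mem_filter, mem_univ, true_and, mem_insert, mem_singleton, Subtype.ext_iff]
      rw [h1, Finset.prod_pair (fun hh => hM.mix M.R _ M.R _ (Subtype.ext_iff.1 hh))]
      rw [hM.size _ (hX z hz).1, hM.size' _ (hX z hz).2, ← mul_inv, sq]
    rw [Finset.sum_congr rfl hw, Finset.sum_const, nsmul_eq_mul, ← div_eq_mul_inv,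
      div_le_iff₀ hq, mul_comm]
    exact hCard
  · intro ω hω
    rw [mem_filter] at hω
    obtain ⟨hω1, T, hTc, hhit, hfree⟩ := hω
    refine ⟨hω1, T.image (fun t => (⟨t.2, (t.1, (M.cd hM (glue (K \ K1) w0 (ext K1 ω)) t.1.1,
      M.cd' hM (glue (K \ K1) w0 (ext K1 ω)) t.1.2))⟩ :
      Σ _ : β, ((ι → ℕ) × (ι → ℕ)) × (ℕ × ℕ))), ?_, ?_, ?_, ?_⟩
    · intro z hz
      rw [mem_image] at hz
      obtain ⟨t, ht, rfl⟩ := hz
      rw [hCand, mem_sigma]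
      obtain ⟨h1, h2, h3, h4⟩ := hhit t ht
      exact ⟨h3, mem_cand hM _ w0 (hg0 _) (hg0' _) h1 h2 h4⟩
    · rw [card_image_of_injOn, hTc]
      intro t _ s _ hts
      simp only [Sigma.mk.injEq, heq_eq_eq, Prod.mk.injEq] at hts
      exact Prod.ext hts.2.1 hts.1
    · intro z hz
      rw [mem_image] at hz
      obtain ⟨t, ht, rfl⟩ := hz
      exact ⟨rfl, rfl⟩
    · intro z hz z' hz' hzz
      rw [mem_image] at hz hz'
      obtain ⟨t, ht, rfl⟩ := hz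
      obtain ⟨s, hs, rfl⟩ := hz'
      have hts : t ≠ s := fun e => hzz (by rw [e])
      obtain ⟨⟨j, hj, hjne⟩, ⟨j', hj', hjne'⟩⟩ := hfree t ht s hs hts
      obtain ⟨t1, t2, _, _⟩ := hhit t ht
      obtain ⟨s1, s2, _, _⟩ := hhit s hs
      rw [Finset.disjoint_left]
      intro k hk hk'
      rw [hfk] at hk hk'
      simp only [mem_filter, mem_univ, true_and] at hk hk'
      rcases hk with hk | hk <;> rcases hk' with hk' | hk'
      · exact hjne (hM.sep _ t1 _ s1 (hk.symm.trans hk') j (hM.PR hj))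
      · exact hM.mix _ _ _ _ (hk.symm.trans hk')
      · exact hM.mix _ _ _ _ (hk'.symm.trans hk)
      · exact hjne' (hM.sep' _ t2 _ s2 (hk.symm.trans hk') j' (hM.PR' hj'))
  · have h0 : (0 : ℝ) ≤ ((OmK Mk K1).card : ℝ) := Nat.cast_nonneg _
    have h1 : (Cand.card : ℝ) * ρ ^ m ≤ (M.q : ℝ) ^ 2 * ρ ^ (m + 1) := by
      have h2 := mul_le_mul_of_nonneg_right hCard (pow_nonneg hρ m)
      refine h2.trans (le_of_eq ?_)
      ring
    exact mul_le_mul_of_nonneg_left h1 h0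

end Pool.Agent.Helper53.T5
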