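import Pool.Agent.Helper53.T5.CO
import Pool.Agent.Helper53.TF.OneFinal

/-!
# T5, FAR1: the one-sided count for the three main families at every position
-/

namespace Pool.Agent.Helper53.T5

open Finset Pool.Agent.Helper5.ET Pool.Agent.Helper27.T4 Pool.Agent.Helper29.T4
open Pool.Agent.Helper25.T5 (Sd Ug Xg Res)
open Pool.Agent.Helper53.TF (Lam lam one_le_Lam lam_le lam_ge pow_eq_exp pr_bounds rank_sizes
  short_le const_le Nj_le cnt_sum' sum_three)

theorem lam_nonneg (f : Fin 3) : 0 ≤ lam f := by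
  have := lam_ge f
  have := one_le_Lam
  linarith

theorem card_Ug_exp (l : ℕ) (f : Fin 3) :
    ((Ug pr (av l) f).card : ℝ) ≤ 3 * Real.exp ((cnt f l : ℝ) * lam f / 2) := by
  have h0 : (Ug pr (av l) f).card ≤ Nat.sqrt (pr f ^ cnt f l) + 1 + 1 := by
    unfold Ug
    refine (Finset.card_insert_le _ _).trans (Nat.add_le_add_right ?_ 1)
    have : ((range (pr f ^ av l f)).filter
        (fun y => y.Prime ∧ y.Coprime (pr f) ∧ y ^ 2 < pr f ^ av l f)) ⊆
        range (Nat.sqrt (pr f ^ cnt f l) + 1) := by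
      intro y hy
      rw [Finset.mem_filter] at hy
      rw [Finset.mem_range, Nat.lt_succ_iff, Nat.le_sqrt']
      exact hy.2.2.2.le
    exact (Finset.card_le_card this).trans (by rw [Finset.card_range])
  have h2 : (Nat.sqrt (pr f ^ cnt f l) : ℝ) ≤ Real.sqrt ((pr f : ℝ) ^ cnt f l) := by
    apply Real.le_sqrt_of_sq_le
    exact_mod_cast Nat.sqrt_le' (pr f ^ cnt f l)
  have h3 : Real.sqrt ((pr f : ℝ) ^ cnt f l) = Real.exp ((cnt f l : ℝ) * lam f / 2) := by
    rw [pow_eq_exp, Real.exp_half]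
  have h4 : (1 : ℝ) ≤ Real.exp ((cnt f l : ℝ) * lam f / 2) := by
    apply Real.one_le_exp
    have := lam_nonneg f
    positivity
  have h5 : ((Ug pr (av l) f).card : ℝ) ≤ (Nat.sqrt (pr f ^ cnt f l) : ℝ) + 1 + 1 := by
    exact_mod_cast h0
  rw [h3] at h2
  linarith

theorem inv_pow_eq (l : ℕ) (f : Fin 3) :
    ((pr f : ℝ) ^ av l f)⁻¹ = Real.exp (-((cnt f l : ℝ) * lam f)) := by
  have h : ((pr f : ℝ)) ^ av l f = Real.exp (cnt f l * lam f) := pow_eq_exp f _
  rw [h, ← Real.exp_neg]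

theorem erase_fam (K : ℕ) :
    (univ : Finset (Fin 3)).erase (fam K) = {fam (K + 1), fam (K + 2)} := by
  rw [univ_fam K, Finset.erase_insert]
  simp [fam_ne_succ K, fam_ne_succ2 K]

/-- the number of candidates -/
theorem card_cand_le {l j : ℕ} (hl : 2 ^ 64 ≤ l) (hj : 200 * j ≤ 41 * l) :
    ((Nj j * (Xg pr (av l)).card : ℕ) : ℝ) ≤ Real.exp (Lam * l) := by
  have hL := one_le_Lam
  have a1 := Nj_le j
  have a4 := const_le hl
  have a5 : ∑ f, (cnt f l : ℝ) * lam f / 2 ≤ Lam * (l / 2) := by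
    have e2 : ∑ f, (cnt f l : ℝ) = l := by exact_mod_cast cnt_sum' l
    rw [← e2, Finset.sum_div, Finset.mul_sum]
    refine Finset.sum_le_sum fun f _ => ?_
    have h2 : (0 : ℝ) ≤ cnt f l := Nat.cast_nonneg _
    nlinarith [lam_le f]
  have a3 : ((Xg pr (av l)).card : ℝ) ≤ 27 * Real.exp (∑ f, (cnt f l : ℝ) * lam f / 2) := by
    unfold Xg
    rw [Fintype.card_piFinset, Real.exp_sum]
    push_cast
    calc ∏ f, ((Ug pr (av l) f).card : ℝ)
        ≤ ∏ f : Fin 3, (3 * Real.exp ((cnt f l : ℝ) * lam f / 2)) :=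
          Finset.prod_le_prod (fun _ _ => Nat.cast_nonneg _) (fun f _ => card_Ug_exp l f)
      _ = 27 * ∏ f, Real.exp ((cnt f l : ℝ) * lam f / 2) := by
          rw [Finset.prod_mul_distrib, Finset.prod_const]
          norm_num
  have a6 : ((Xg pr (av l)).card : ℝ) ≤ Real.exp (Lam * (l / 200)) * Real.exp (Lam * (l / 2)) := by
    refine a3.trans (mul_le_mul (by linarith) (Real.exp_le_exp.2 a5) (Real.exp_pos _).le
      (Real.exp_pos _).le)
  have a8 : (Nj j : ℝ) ≤ Real.exp (Lam * (41 / 200 * l)) := by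
    refine a1.trans (Real.exp_le_exp.2 (mul_le_mul_of_nonneg_left ?_ (by linarith)))
    have : (200 : ℝ) * j ≤ 41 * l := by exact_mod_cast hj
    linarith
  push_cast
  calc (Nj j : ℝ) * (Xg pr (av l)).card
      ≤ Real.exp (Lam * (41 / 200 * l)) *
        (Real.exp (Lam * (l / 200)) * Real.exp (Lam * (l / 2))) :=
        mul_le_mul a8 a6 (Nat.cast_nonneg _) (Real.exp_pos _).le
    _ = Real.exp (Lam * (41 / 200 * l + l / 200 + l / 2)) := by
        rw [← Real.exp_add, ← Real.exp_add]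
        congr 1
        ring
    _ ≤ Real.exp (Lam * l) := by
        apply Real.exp_le_exp.2
        apply mul_le_mul_of_nonneg_left _ (by linarith)
        have : (0 : ℝ) ≤ l := Nat.cast_nonneg _
        linarith

/-- the weight, chain phase -/
theorem weight_chain {l : ℕ} (hl : 2 ^ 64 ≤ l) {K : ℕ}
    (hsz : (cnt (fam K) l : ℝ) / 2
      - 49 / 100 * ((cnt (fam (K + 2)) l : ℝ) + cnt (fam (K + 1)) l) ≤ -(l / 60 : ℝ)) :
    (((Ug pr (av l) (fam K)).card * ∏ f ∈ univ.erase (fam K),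
      (if f ∈ ({fam K} : Finset (Fin 3)) then pr f - 1 else (Ug pr (av l) f).card) : ℕ) : ℝ) *
        ∏ f ∈ ({fam (K + 1), fam (K + 2)} : Finset (Fin 3)), ((pr f : ℝ) ^ av l f)⁻¹
      ≤ Real.exp (-(Lam * (l / 100))) := by
  have hL := one_le_Lam
  have h1 : fam K ≠ fam (K + 1) := fam_ne_succ K
  have h2 : fam K ≠ fam (K + 2) := fam_ne_succ2 K
  have h3 : fam (K + 1) ≠ fam (K + 2) := fam_ne_succ (K + 1)
  rw [erase_fam, Finset.prod_pair h3, Finset.prod_pair h3, if_neg (by simpa using h1.symm),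
    if_neg (by simpa using h2.symm), inv_pow_eq, inv_pow_eq]
  push_cast
  have u0 := card_Ug_exp l (fam K)
  have u1 := card_Ug_exp l (fam (K + 1))
  have u2 := card_Ug_exp l (fam (K + 2))
  have b4 := const_le hl
  set E0 := Real.exp ((cnt (fam K) l : ℝ) * lam (fam K) / 2) with hE0
  set E1 := Real.exp ((cnt (fam (K + 1)) l : ℝ) * lam (fam (K + 1)) / 2) with hE1
  set E2 := Real.exp ((cnt (fam (K + 2)) l : ℝ) * lam (fam (K + 2)) / 2) with hE2
  have b1 : ((Ug pr (av l) (fam K)).card : ℝ) *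
      ((Ug pr (av l) (fam (K + 1))).card * (Ug pr (av l) (fam (K + 2))).card) ≤
      Real.exp (Lam * (l / 200)) * (E0 * (E1 * E2)) := by
    calc ((Ug pr (av l) (fam K)).card : ℝ) *
          ((Ug pr (av l) (fam (K + 1))).card * (Ug pr (av l) (fam (K + 2))).card)
        ≤ (3 * E0) * ((3 * E1) * (3 * E2)) :=
          mul_le_mul u0 (mul_le_mul u1 u2 (Nat.cast_nonneg _) (by positivity))
            (by positivity) (by positivity)
      _ = 27 * (E0 * (E1 * E2)) := by ring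
      _ ≤ _ := mul_le_mul_of_nonneg_right (by linarith) (by positivity)
  refine (mul_le_mul_of_nonneg_right b1 (by positivity)).trans ?_
  rw [hE0, hE1, hE2, ← Real.exp_add, ← Real.exp_add, ← Real.exp_add, ← Real.exp_add,
    ← Real.exp_add]
  apply Real.exp_le_exp.2
  have c0 : (0 : ℝ) ≤ cnt (fam K) l := Nat.cast_nonneg _
  have c1 : (0 : ℝ) ≤ cnt (fam (K + 1)) l := Nat.cast_nonneg _
  have c2 : (0 : ℝ) ≤ cnt (fam (K + 2)) l := Nat.cast_nonneg _
  have d0 : (cnt (fam K) l : ℝ) * lam (fam K) ≤ cnt (fam K) l * Lam :=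
    mul_le_mul_of_nonneg_left (lam_le _) c0
  have d1 : (cnt (fam (K + 1)) l : ℝ) * (99 / 100 * Lam) ≤
      cnt (fam (K + 1)) l * lam (fam (K + 1)) := mul_le_mul_of_nonneg_left (lam_ge _) c1
  have d2 : (cnt (fam (K + 2)) l : ℝ) * (99 / 100 * Lam) ≤
      cnt (fam (K + 2)) l * lam (fam (K + 2)) := mul_le_mul_of_nonneg_left (lam_ge _) c2
  have d3 := mul_le_mul_of_nonneg_left hsz (show 0 ≤ Lam by linarith)
  have d4 : 0 ≤ Lam * cnt (fam (K + 1)) l := mul_nonneg (by linarith) c1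
  have d5 : 0 ≤ Lam * cnt (fam (K + 2)) l := mul_nonneg (by linarith) c2
  have d6 : 0 ≤ Lam * (l : ℝ) := mul_nonneg (by linarith) (Nat.cast_nonneg _)
  nlinarith [d0, d1, d2, d3, d4, d5, d6]

/-- the weight, isolation phase -/
theorem weight_iso {l : ℕ} (hl : 2 ^ 64 ≤ l) {K : ℕ}
    (hsz : (cnt (fam K) l : ℝ) / 2
      - 49 / 100 * (cnt (fam (K + 2)) l : ℝ) ≤ -(l / 60 : ℝ)) :
    (((Ug pr (av l) (fam K)).card * ∏ f ∈ univ.erase (fam K),
      (if f ∈ ({fam K, fam (K + 1)} : Finset (Fin 3)) then pr f - 1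
        else (Ug pr (av l) f).card) : ℕ) : ℝ) *
        ∏ f ∈ ({fam (K + 2)} : Finset (Fin 3)), ((pr f : ℝ) ^ av l f)⁻¹
      ≤ Real.exp (-(Lam * (l / 100))) := by
  have hL := one_le_Lam
  have h1 : fam K ≠ fam (K + 1) := fam_ne_succ K
  have h2 : fam K ≠ fam (K + 2) := fam_ne_succ2 K
  have h3 : fam (K + 1) ≠ fam (K + 2) := fam_ne_succ (K + 1)
  rw [erase_fam, Finset.prod_pair h3, Finset.prod_singleton, if_pos (by simp),
    if_neg (by simp [h2.symm, h3.symm]), inv_pow_eq]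
  push_cast
  have u0 := card_Ug_exp l (fam K)
  have u2 := card_Ug_exp l (fam (K + 2))
  have b4 := const_le hl
  set E0 := Real.exp ((cnt (fam K) l : ℝ) * lam (fam K) / 2) with hE0
  set E2 := Real.exp ((cnt (fam (K + 2)) l : ℝ) * lam (fam (K + 2)) / 2) with hE2
  have b5 : ((pr (fam (K + 1)) - 1 : ℕ) : ℝ) * 9 ≤ Real.exp (Lam * (l / 200)) := by
    refine le_trans ?_ b4
    have h1 : ((pr (fam (K + 1)) - 1 : ℕ) : ℝ) ≤ 1000037 := by
      have := (pr_bounds (fam (K + 1))).2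
      exact_mod_cast (show pr (fam (K + 1)) - 1 ≤ 1000037 by omega)
    linarith
  have b1 : ((Ug pr (av l) (fam K)).card : ℝ) *
      (((pr (fam (K + 1)) - 1 : ℕ) : ℝ) * (Ug pr (av l) (fam (K + 2))).card) ≤
      Real.exp (Lam * (l / 200)) * (E0 * E2) := by
    calc ((Ug pr (av l) (fam K)).card : ℝ) *
          (((pr (fam (K + 1)) - 1 : ℕ) : ℝ) * (Ug pr (av l) (fam (K + 2))).card)
        ≤ (3 * E0) * (((pr (fam (K + 1)) - 1 : ℕ) : ℝ) * (3 * E2)) :=
          mul_le_mul u0 (mul_le_mul_of_nonneg_left u2 (Nat.cast_nonneg _))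
            (by positivity) (by positivity)
      _ = (((pr (fam (K + 1)) - 1 : ℕ) : ℝ) * 9) * (E0 * E2) := by ring
      _ ≤ _ := mul_le_mul_of_nonneg_right b5 (by positivity)
  refine (mul_le_mul_of_nonneg_right b1 (by positivity)).trans ?_
  rw [hE0, hE2, ← Real.exp_add, ← Real.exp_add, ← Real.exp_add]
  apply Real.exp_le_exp.2
  have c0 : (0 : ℝ) ≤ cnt (fam K) l := Nat.cast_nonneg _
  have c2 : (0 : ℝ) ≤ cnt (fam (K + 2)) l := Nat.cast_nonneg _
  have d0 : (cnt (fam K) l : ℝ) * lam (fam K) ≤ cnt (fam K) l * Lam :=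
    mul_le_mul_of_nonneg_left (lam_le _) c0
  have d2 : (cnt (fam (K + 2)) l : ℝ) * (99 / 100 * Lam) ≤
      cnt (fam (K + 2)) l * lam (fam (K + 2)) := mul_le_mul_of_nonneg_left (lam_ge _) c2
  have d3 := mul_le_mul_of_nonneg_left hsz (show 0 ≤ Lam by linarith)
  have d5 : 0 ≤ Lam * cnt (fam (K + 2)) l := mul_nonneg (by linarith) c2
  have d6 : 0 ≤ Lam * (l : ℝ) := mul_nonneg (by linarith) (Nat.cast_nonneg _)
  nlinarith [d0, d2, d3, d5, d6]

open Classical in
/-- FAR1: an interval of length `Nj j`, `j ≤ 41/200 l`, contains at most `20000` numbers with the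
residues of an admissible vector -/
theorem far1 : ∃ l0 : ℕ, ∀ l ≥ l0, ∀ j : ℕ, 200 * j ≤ 41 * l →
    ∀ {Ω κ : Type*} [Fintype Ω] {ρ : Ω → κ → ℕ} {M : κ → ℕ} (_ : Indep ρ M)
    (σ : Sd (Fin 3) κ) (_ : σ.a = av l) (_ : σ.pre = pre l)
    (_ : ∀ f g, ∀ x ∈ Xg pr (av l), ∀ y ∈ Xg pr (av l),
      σ.key f (Helper25.T5.mk (pre l f) x) = σ.key g (Helper25.T5.mk (pre l g) y) →
        f = g ∧ Helper25.T5.mk (pre l f) x = Helper25.T5.mk (pre l g) y)
    (_ : ∀ f, ∀ x ∈ Xg pr (av l), M (σ.key f (Helper25.T5.mk (pre l f) x)) = pr f ^ av l f)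
    (_ : ∀ r f, ∀ x ∈ Xg pr (av l),
      ρ r (σ.key f (Helper25.T5.mk (pre l f) x)) < pr f ^ av l f)
    (Y0 : ℕ) (_ : (Y0 : ℝ) ≤ Real.exp (100 * l)),
    (((univ : Finset Ω).filter (fun r => ∃ y0 < Y0,
      20000 < ((Finset.Ico y0 (y0 + Nj j)).filter
        (fun z => ∃ x ∈ Xg pr (av l), Res pr σ (ρ r) z x)).card)).card : ℝ) ≤
      Fintype.card Ω * Real.exp (-(l : ℝ)) := by
  obtain ⟨y1, hy1⟩ := rank_sizes
  refine ⟨y1, fun l hly j hj Ω κ _ ρ M hI σ ha hpre hkey hM hlt Y0 hY0 => ?_⟩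
  obtain ⟨hb0, hr1, hr2, hr3⟩ := hy1 l hly
  have hl : 2 ^ 64 ≤ l := hb0
  have hL := one_le_Lam
  set KK := ordK l with hKK
  have hMj : Nj j ≤ pr (fam KK) ^ cnt (fam KK) l := short_le hj hr1
  have hfin : (Y0 : ℝ) * (Real.exp (Lam * l) * (Real.exp (-(Lam * (l / 100)))) ^ 20000)
      ≤ Real.exp (-(l : ℝ)) := by
    calc (Y0 : ℝ) * (Real.exp (Lam * l) * (Real.exp (-(Lam * (l / 100)))) ^ 20000)
        ≤ Real.exp (100 * l) * (Real.exp (Lam * l) * (Real.exp (-(Lam * (l / 100)))) ^ 20000) :=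
          mul_le_mul_of_nonneg_right hY0 (by positivity)
      _ = Real.exp (100 * l - 199 * (Lam * l)) := by
          rw [← Real.exp_nat_mul, ← Real.exp_add, ← Real.exp_add]
          congr 1
          push_cast
          ring
      _ ≤ Real.exp (-(l : ℝ)) := by
          apply Real.exp_le_exp.2
          have : (0 : ℝ) ≤ l := Nat.cast_nonneg _
          nlinarith
  have hha : ∀ f, σ.a f = cnt f l := fun f => by rw [ha]; rfl
  have hpre0 : σ.pre (fam KK) = ∅ := by
    rw [hpre]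
    exact pre_head l
  by_cases hi : iso l
  · have h := one_abs hI pr_prime pr_ne_two σ (by rw [ha, hpre]; exact hkey)
      (by rw [ha, hpre]; exact hM) (by rw [ha, hpre]; exact hlt) (fam KK)
      {fam KK, fam (KK + 1)} {fam (KK + 2)} (by simp) ?_ ?_ (Nj j) Y0 20000 ?_
      (Real.exp (-(Lam * (l / 100)))) (Real.exp (Lam * l)) (Real.exp_pos _).le ?_ ?_
    · rw [ha] at h
      exact h.trans (mul_le_mul_of_nonneg_left hfin (Nat.cast_nonneg _))
    · intro f hf
      rw [Finset.mem_insert, Finset.mem_singleton] at hf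
      rcases hf with rfl | rfl
      · exact hpre0
      · rw [hpre]
        exact pre_third_iso hi
    · intro f hf
      rw [Finset.mem_singleton] at hf
      subst hf
      rw [hpre, hKK, pre_second]
      exact Finset.mem_singleton_self _
    · rw [hha]
      exact hMj
    · rw [ha]
      exact weight_iso hl (hr3 hi)
    · rw [ha]
      exact card_cand_le hl hj
  · have h := one_abs hI pr_prime pr_ne_two σ (by rw [ha, hpre]; exact hkey)
      (by rw [ha, hpre]; exact hM) (by rw [ha, hpre]; exact hlt) (fam KK)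
      {fam KK} {fam (KK + 1), fam (KK + 2)} (by simp) ?_ ?_ (Nj j) Y0 20000 ?_
      (Real.exp (-(Lam * (l / 100)))) (Real.exp (Lam * l)) (Real.exp_pos _).le ?_ ?_
    · rw [ha] at h
      exact h.trans (mul_le_mul_of_nonneg_left hfin (Nat.cast_nonneg _))
    · intro f hf
      rw [Finset.mem_singleton] at hf
      subst hf
      exact hpre0
    · intro f hf
      rw [Finset.mem_insert, Finset.mem_singleton] at hf
      rcases hf with rfl | rfl
      · rw [hpre, hKK, pre_third hi]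
        simp
      · rw [hpre, hKK, pre_second]
        exact Finset.mem_singleton_self _
    · rw [hha]
      exact hMj
    · rw [ha]
      exact weight_chain hl (hr2 hi)
    · rw [ha]
      exact card_cand_le hl hj

end Pool.Agent.Helper53.T5
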