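import Pool.Agent.Helper25.T5.Gen
import Pool.Agent.Helper27.T4.Ind2

/-!
# Crude level 1 block, one-sided count, abstract form

`(z, x)` is a hit if `z` has the residues belonging to `x`.  The family `f0` is the head (hashed by
nobody), `N` are the unhashed families, every family of `F` is hashed by `f0`.
-/

namespace Pool.Agent.Helper53.T5

open Finset Pool.Agent.Helper27.T4 Pool.Agent.Helper29.T4
open Pool.Agent.Helper25.T5 (Sd Ug Xg Res vl)

variable {ι κ : Type*} [Fintype ι] [DecidableEq ι]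

/-- masked vector -/
abbrev mk1 (P : Finset ι) (x : ι → ℕ) : ι → ℕ := Pool.Agent.Helper25.T5.mk P x

omit [Fintype ι] in
theorem mk1_empty (x y : ι → ℕ) : mk1 ∅ x = mk1 ∅ y := by
  funext g
  simp [Pool.Agent.Helper25.T5.mk]

omit [Fintype ι] in
theorem mk1_mem {P : Finset ι} {x : ι → ℕ} {g : ι} (hg : g ∈ P) : mk1 P x g = x g := by
  simp [Pool.Agent.Helper25.T5.mk, hg]

/-- the candidates in the interval `[y0, y0 + L)` -/
def Y1 (p a : ι → ℕ) (y0 L : ℕ) : Finset (ℕ × (ι → ℕ)) := Finset.Ico y0 (y0 + L) ×ˢ Xg p a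

theorem mem_Y1 {p a : ι → ℕ} {y0 L : ℕ} {q : ℕ × (ι → ℕ)} :
    q ∈ Y1 p a y0 L ↔ (y0 ≤ q.1 ∧ q.1 < y0 + L) ∧ q.2 ∈ Xg p a := by
  unfold Y1
  rw [Finset.mem_product, Finset.mem_Ico]

/-- compatible candidates -/
def Cp (p : ι → ℕ) (σ : Sd ι κ) (N : Finset ι) (q r : ℕ × (ι → ℕ)) : Prop :=
  ∀ f ∈ N, vl p σ f q.1 (q.2 f) = vl p σ f r.1 (r.2 f)

theorem eq_of_modEq {a b y M m : ℕ} (ha : y ≤ a ∧ a < y + M) (hb : y ≤ b ∧ b < y + M) (hM : M ≤ m)
    (h : a ≡ b [MOD m]) : a = b := by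
  rcases Nat.le_total a b with hab | hab
  · have h1 : m ∣ b - a := (Nat.modEq_iff_dvd' hab).1 h
    rcases Nat.eq_zero_or_pos (b - a) with h2 | h2
    · omega
    · have := Nat.le_of_dvd h2 h1
      omega
  · have h1 : m ∣ a - b := (Nat.modEq_iff_dvd' hab).1 h.symm
    rcases Nat.eq_zero_or_pos (a - b) with h2 | h2
    · omega
    · have := Nat.le_of_dvd h2 h1
      omega

omit [Fintype ι] [DecidableEq ι] in
theorem Ug_coprime {p a : ι → ℕ} {f : ι} {y : ℕ} (hy : y ∈ Ug p a f) : y.Coprime (p f) := by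
  unfold Ug at hy
  rw [Finset.mem_insert, Finset.mem_filter] at hy
  rcases hy with rfl | hy
  · exact Nat.coprime_one_left _
  · exact hy.2.2.1

omit [Fintype ι] [DecidableEq ι] in
theorem Ug_lt {p a : ι → ℕ} {f : ι} (hp : (p f).Prime) {y : ℕ} (hy : y ∈ Ug p a f) :
    y < p f ^ (a f + 1) := by
  unfold Ug at hy
  rw [Finset.mem_insert, Finset.mem_filter, Finset.mem_range] at hy
  rcases hy with rfl | hy
  · exact Nat.one_lt_pow (Nat.succ_ne_zero _) hp.one_lt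
  · exact lt_of_lt_of_le hy.1 (Nat.pow_le_pow_right hp.pos (Nat.le_succ _))

theorem mem_Xg {p a : ι → ℕ} {x : ι → ℕ} : x ∈ Xg p a ↔ ∀ f, x f ∈ Ug p a f := by
  unfold Xg
  rw [Fintype.mem_piFinset]

omit [Fintype ι] [DecidableEq ι] in
/-- equal key values -/
theorem vl_eq {p : ι → ℕ} (hp : ∀ i, (p i).Prime) {σ : Sd ι κ} {f : ι} {z z' x x' : ℕ}
    (h : vl p σ f z x = vl p σ f z' x') :
    (z : ZMod (p f ^ σ.a f)) - Lg (p f) (σ.a f) x = (z' : ZMod (p f ^ σ.a f)) -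
      Lg (p f) (σ.a f) x' := by
  have hne : NeZero (p f ^ σ.a f) := ⟨(pow_pos (hp f).pos _).ne'⟩
  unfold vl at h
  exact ZMod.val_injective _ h

omit [Fintype ι] in
/-- the value of the key of a hit -/
theorem key_val_co {p : ι → ℕ} {σ : Sd ι κ} {w : κ → ℕ} {z : ℕ} {x : ι → ℕ}
    (h : Res p σ w z x) (f : ι) (hw : w (σ.key f (mk1 (σ.pre f) x)) < p f ^ σ.a f) :
    w (σ.key f (mk1 (σ.pre f) x)) = vl p σ f z (x f) := by
  have h1 := h f
  unfold vl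
  rw [h1, add_sub_cancel_left, ZMod.val_natCast, Nat.mod_eq_of_lt hw]

omit [Fintype ι] in
/-- hits with the same head lie in the same class -/
theorem res_congr {p : ι → ℕ} {σ : Sd ι κ} {w : κ → ℕ} {f0 : ι} (h0 : σ.pre f0 = ∅) {z z' : ℕ}
    {x x' : ι → ℕ} (h : Res p σ w z x) (h' : Res p σ w z' x') (hx : x f0 = x' f0) :
    z ≡ z' [MOD p f0 ^ σ.a f0] := by
  have h1 := h f0
  have h2 := h' f0
  have hm : mk1 (σ.pre f0) x = mk1 (σ.pre f0) x' := by
    rw [h0]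
    exact mk1_empty _ _
  have h1' : (z : ZMod (p f0 ^ σ.a f0)) = Lg (p f0) (σ.a f0) (x f0) +
    ((w (σ.key f0 (mk1 (σ.pre f0) x)) : ℕ) : ZMod (p f0 ^ σ.a f0)) := h1
  have h2' : (z' : ZMod (p f0 ^ σ.a f0)) = Lg (p f0) (σ.a f0) (x' f0) +
    ((w (σ.key f0 (mk1 (σ.pre f0) x')) : ℕ) : ZMod (p f0 ^ σ.a f0)) := h2
  clear h1
  have h1 := h1'
  rw [hm, hx, ← h2'] at h1
  rwa [ZMod.natCast_eq_natCast_iff] at h1

theorem card_filter_le_of {α : Type*} (S : Finset α) (P P' : α → Prop)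
    (iP : DecidablePred P) (iP' : DecidablePred P') (h : ∀ a ∈ S, P a → P' a) :
    (@Finset.filter _ P iP S).card ≤ (@Finset.filter _ P' iP' S).card := by
  apply Finset.card_le_card
  intro a ha
  simp only [Finset.mem_filter] at ha ⊢
  exact ⟨ha.1, h a ha.1 ha.2⟩

open Classical in
/-- the probability of `m + 1` hits with distinct heads -/
theorem prob1 {Ω : Type*} [Fintype Ω] {ρ : Ω → κ → ℕ} {M : κ → ℕ} (hI : Indep ρ M)
    (p : ι → ℕ) (σ : Sd ι κ)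
    (hkey : ∀ f g, ∀ x ∈ Xg p σ.a, ∀ y ∈ Xg p σ.a,
      σ.key f (mk1 (σ.pre f) x) = σ.key g (mk1 (σ.pre g) y) →
        f = g ∧ mk1 (σ.pre f) x = mk1 (σ.pre g) y)
    (hM : ∀ f, ∀ x ∈ Xg p σ.a, M (σ.key f (mk1 (σ.pre f) x)) = p f ^ σ.a f)
    (hlt : ∀ r f, ∀ x ∈ Xg p σ.a, ρ r (σ.key f (mk1 (σ.pre f) x)) < p f ^ σ.a f)
    (f0 : ι) (N F : Finset ι) (hN : ∀ f ∈ N, σ.pre f = ∅) (hF : ∀ f ∈ F, f0 ∈ σ.pre f)
    (Y : Finset (ℕ × (ι → ℕ))) (hY : ∀ q ∈ Y, q.2 ∈ Xg p σ.a) (Q : ℝ)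
    (hQ : ∀ q ∈ Y, ((Y.filter (Cp p σ N q)).card : ℝ) * ∏ f ∈ F, ((p f : ℝ) ^ σ.a f)⁻¹ ≤ Q)
    (m : ℕ) :
    (((univ : Finset Ω).filter (fun r => ∃ T ⊆ Y, T.card = m + 1 ∧
      (∀ q ∈ T, Res p σ (ρ r) q.1 q.2) ∧
      Set.InjOn (fun q : ℕ × (ι → ℕ) => q.2 f0) (T : Set (ℕ × (ι → ℕ))))).card : ℝ) ≤
      Fintype.card Ω * (Y.card * Q ^ m) := by
  have hmain := tuple_bound_abs hI Y (fun y r => Res p σ (ρ r) y.1 y.2)
    (fun y => F.image (fun f => σ.key f (mk1 (σ.pre f) y.2)))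
    (fun y k => if h : ∃ f, σ.key f (mk1 (σ.pre f) y.2) = k then
      vl p σ h.choose y.1 (y.2 h.choose) else 0)
    ?_ (Cp p σ N) Q ?_ m
  · refine le_trans ?_ hmain
    apply Nat.cast_le.mpr
    refine card_filter_le_of _ _ _ _ _ ?_
    rintro r _ ⟨T, hTY, hTc, hhit, hinj⟩
    refine ⟨T, hTY, hTc, hhit, ?_, ?_⟩
    · intro y hy z hz f hf
      have h1 := key_val_co (hhit y hy) f (hlt r f _ (hY y (hTY hy)))
      have h2 := key_val_co (hhit z hz) f (hlt r f _ (hY z (hTY hz)))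
      rw [← h1, ← h2]
      congr 2
      rw [hN f hf]
      exact mk1_empty _ _
    · intro y hy z hz hyz
      rw [Finset.disjoint_left]
      intro k hk hk'
      rw [Finset.mem_image] at hk hk'
      obtain ⟨f, hf, he⟩ := hk
      obtain ⟨f', hf', he'⟩ := hk'
      obtain ⟨hff, hmm⟩ := hkey _ _ _ (hY z (hTY hz)) _ (hY y (hTY hy)) (he'.trans he.symm)
      subst hff
      have h1 := congrFun hmm f0
      rw [mk1_mem (hF f' hf'), mk1_mem (hF f' hf')] at h1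
      exact hyz (hinj (Finset.mem_coe.2 hy) (Finset.mem_coe.2 hz) h1.symm)
  · intro y hy r hhit k hk
    rw [Finset.mem_image] at hk
    obtain ⟨f, _, he⟩ := hk
    have hex : ∃ f, σ.key f (mk1 (σ.pre f) y.2) = k := ⟨f, he⟩
    have hch : hex.choose = f :=
      (hkey _ _ _ (hY y hy) _ (hY y hy) (hex.choose_spec.trans he.symm)).1
    show ρ r k = dite _ _ _
    rw [dif_pos hex, hch, ← he]
    exact key_val_co hhit f (hlt r f _ (hY y hy))
  · intro y hy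
    refine le_trans (le_of_eq ?_) (hQ y hy)
    rw [← nsmul_eq_mul, ← Finset.sum_const]
    apply Finset.sum_congr rfl
    intro z hz
    have hzX := hY z (Finset.mem_filter.1 hz).1
    rw [Finset.prod_image]
    · refine Finset.prod_congr rfl (fun f _ => ?_)
      rw [hM f _ hzX]
      push_cast
      rfl
    · intro f _ f' _ h
      exact (hkey _ _ _ hzX _ hzX h).1

open Classical in
/-- the number of compatible candidates: the head determines `z`, the other unhashed families are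
then determined up to `p` choices -/
theorem card_Cp {p : ι → ℕ} (hp : ∀ i, (p i).Prime) (hp2 : ∀ i, p i ≠ 2) {σ : Sd ι κ} {f0 : ι}
    {N : Finset ι} (h0 : f0 ∈ N) {y0 L : ℕ} (hL : L ≤ p f0 ^ σ.a f0) (q : ℕ × (ι → ℕ)) :
    ((Y1 p σ.a y0 L).filter (Cp p σ N q)).card ≤
      (Ug p σ.a f0).card * ∏ f ∈ univ.erase f0, (if f ∈ N then p f - 1 else (Ug p σ.a f).card) := by
  set S := (Y1 p σ.a y0 L).filter (Cp p σ N q) with hS
  -- the element `z` belonging to the value `t` of the head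
  have hz : ∀ r ∈ S, ∀ r' ∈ S, r.2 f0 = r'.2 f0 → r.1 = r'.1 := by
    intro r hr r' hr' hx
    rw [hS, Finset.mem_filter] at hr hr'
    have h1 := (hr.2 f0 h0).symm.trans (hr'.2 f0 h0)
    have h2 := vl_eq hp h1
    rw [hx] at h2
    have h3 : (r.1 : ZMod (p f0 ^ σ.a f0)) = r'.1 := sub_left_injective h2
    rw [ZMod.natCast_eq_natCast_iff] at h3
    exact eq_of_modEq (mem_Y1.1 hr.1).1 (mem_Y1.1 hr'.1).1 hL h3
  -- sets of possible values
  let B : ℕ → ι → Finset ℕ := fun t f =>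
    if f = f0 then {t} else
      if f ∈ N then ((S.filter (fun r => r.2 f0 = t)).image (fun r => r.2 f)) else Ug p σ.a f
  have hsub : S.image Prod.snd ⊆ (Ug p σ.a f0).biUnion (fun t => Fintype.piFinset (B t)) := by
    intro x hx
    rw [Finset.mem_image] at hx
    obtain ⟨r, hr, rfl⟩ := hx
    have hr' := hr
    rw [hS, Finset.mem_filter] at hr'
    have hxX := mem_Xg.1 (mem_Y1.1 hr'.1).2
    rw [Finset.mem_biUnion]
    refine ⟨r.2 f0, hxX f0, ?_⟩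
    rw [Fintype.mem_piFinset]
    intro f
    show r.2 f ∈ ite _ _ _
    by_cases hf : f = f0
    · rw [if_pos hf, hf, Finset.mem_singleton]
    · rw [if_neg hf]
      by_cases hfN : f ∈ N
      · rw [if_pos hfN, Finset.mem_image]
        exact ⟨r, Finset.mem_filter.2 ⟨hr, rfl⟩, rfl⟩
      · rw [if_neg hfN]
        exact hxX f
  have hinj : S.card = (S.image Prod.snd).card := by
    rw [Finset.card_image_of_injOn]
    intro r hr r' hr' h
    have h' : r.2 = r'.2 := h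
    exact Prod.ext (hz r hr r' hr' (by rw [h'])) h'
  rw [hinj]
  refine (Finset.card_le_card hsub).trans (Finset.card_biUnion_le.trans ?_)
  rw [← smul_eq_mul, ← Finset.sum_const]
  refine Finset.sum_le_sum (fun t _ => ?_)
  rw [Fintype.card_piFinset, ← Finset.mul_prod_erase univ _ (Finset.mem_univ f0)]
  have e0 : (B t f0).card = 1 := by
    show (ite _ _ _ : Finset ℕ).card = 1
    rw [if_pos rfl, Finset.card_singleton]
  rw [e0, one_mul]
  refine Finset.prod_le_prod' (fun f hf => ?_)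
  have hff : f ≠ f0 := Finset.ne_of_mem_erase hf
  show (ite _ _ _ : Finset ℕ).card ≤ _
  rw [if_neg hff]
  by_cases hfN : f ∈ N
  · rw [if_pos hfN, if_pos hfN]
    rcases (S.filter (fun r => r.2 f0 = t)).eq_empty_or_nonempty with he | ⟨r0, hr0⟩
    · rw [he, Finset.image_empty, Finset.card_empty]
      exact Nat.zero_le _
    · have hr0' := Finset.mem_filter.1 hr0
      have hr0S := hr0'.1
      rw [hS, Finset.mem_filter] at hr0S
      refine le_trans (Finset.card_le_card ?_) (card_Lg_le (hp f) (hp2 f) (σ.a f)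
        (Lg (p f) (σ.a f) (r0.2 f)))
      intro x hx
      rw [Finset.mem_image] at hx
      obtain ⟨r, hr, rfl⟩ := hx
      have hr' := Finset.mem_filter.1 hr
      have hrS := hr'.1
      rw [hS, Finset.mem_filter] at hrS
      have hze : r.1 = r0.1 := hz r hr'.1 r0 hr0'.1 (hr'.2.trans hr0'.2.symm)
      have h1 := (hrS.2 f hfN).symm.trans (hr0S.2 f hfN)
      have h2 := vl_eq hp h1
      rw [hze] at h2
      have h3 : Lg (p f) (σ.a f) (r.2 f) = Lg (p f) (σ.a f) (r0.2 f) := sub_right_injective h2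
      have hxX := mem_Xg.1 (mem_Y1.1 hrS.1).2 f
      rw [Finset.mem_filter, Finset.mem_range]
      exact ⟨Ug_lt (hp f) hxX, Ug_coprime hxX, h3⟩
  · rw [if_neg hfN, if_neg hfN]

open Classical in
/-- many elements in a short interval give many hits with distinct heads -/
theorem hits_of_card {p : ι → ℕ} {σ : Sd ι κ} {w : κ → ℕ} {f0 : ι} (h0 : σ.pre f0 = ∅)
    {y0 L m : ℕ} (hL : L ≤ p f0 ^ σ.a f0)
    (h : m < ((Finset.Ico y0 (y0 + L)).filter (fun z => ∃ x ∈ Xg p σ.a, Res p σ w z x)).card) :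
    ∃ T ⊆ Y1 p σ.a y0 L, T.card = m + 1 ∧ (∀ q ∈ T, Res p σ w q.1 q.2) ∧
      Set.InjOn (fun q : ℕ × (ι → ℕ) => q.2 f0) (T : Set (ℕ × (ι → ℕ))) := by
  have hex : ∀ z ∈ (Finset.Ico y0 (y0 + L)).filter (fun z => ∃ x ∈ Xg p σ.a, Res p σ w z x),
      ∃ x, x ∈ Xg p σ.a ∧ Res p σ w z x := by
    intro z hz
    exact (Finset.mem_filter.1 hz).2
  choose! φ hφ using hex
  obtain ⟨S, hS, hSc⟩ := Finset.exists_subset_card_eq (Nat.succ_le_of_lt h)
  refine ⟨S.image (fun z => (z, φ z)), ?_, ?_, ?_, ?_⟩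
  · intro q hq
    rw [Finset.mem_image] at hq
    obtain ⟨z, hz, rfl⟩ := hq
    rw [mem_Y1]
    exact ⟨Finset.mem_Ico.1 (Finset.mem_filter.1 (hS hz)).1, (hφ z (hS hz)).1⟩
  · rw [Finset.card_image_of_injOn, hSc]
    intro a _ b _ hab
    exact (Prod.mk.inj hab).1
  · intro q hq
    rw [Finset.mem_image] at hq
    obtain ⟨z, hz, rfl⟩ := hq
    exact (hφ z (hS hz)).2
  · intro q hq r hr hqr
    rw [Finset.mem_coe, Finset.mem_image] at hq hr
    obtain ⟨a, ha, rfl⟩ := hq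
    obtain ⟨b, hb, rfl⟩ := hr
    have hx : φ a f0 = φ b f0 := hqr
    have h1 := res_congr h0 (hφ a (hS ha)).2 (hφ b (hS hb)).2 hx
    have h2 := eq_of_modEq (Finset.mem_Ico.1 (Finset.mem_filter.1 (hS ha)).1)
      (Finset.mem_Ico.1 (Finset.mem_filter.1 (hS hb)).1) hL h1
    rw [h2]

open Classical in
/-- ONE-SIDED COUNT, abstract form -/
theorem one_abs {Ω : Type*} [Fintype Ω] {ρ : Ω → κ → ℕ} {M : κ → ℕ} (hI : Indep ρ M)
    {p : ι → ℕ} (hp : ∀ i, (p i).Prime) (hp2 : ∀ i, p i ≠ 2) (σ : Sd ι κ)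
    (hkey : ∀ f g, ∀ x ∈ Xg p σ.a, ∀ y ∈ Xg p σ.a,
      σ.key f (mk1 (σ.pre f) x) = σ.key g (mk1 (σ.pre g) y) →
        f = g ∧ mk1 (σ.pre f) x = mk1 (σ.pre g) y)
    (hM : ∀ f, ∀ x ∈ Xg p σ.a, M (σ.key f (mk1 (σ.pre f) x)) = p f ^ σ.a f)
    (hlt : ∀ r f, ∀ x ∈ Xg p σ.a, ρ r (σ.key f (mk1 (σ.pre f) x)) < p f ^ σ.a f)
    (f0 : ι) (N F : Finset ι) (h0 : f0 ∈ N) (hN : ∀ f ∈ N, σ.pre f = ∅)
    (hF : ∀ f ∈ F, f0 ∈ σ.pre f) (L Y0 m : ℕ) (hL : L ≤ p f0 ^ σ.a f0) (Q NY : ℝ)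
    (hQ0 : 0 ≤ Q)
    (hQ : (((Ug p σ.a f0).card * ∏ f ∈ univ.erase f0,
      (if f ∈ N then p f - 1 else (Ug p σ.a f).card) : ℕ) : ℝ) *
        ∏ f ∈ F, ((p f : ℝ) ^ σ.a f)⁻¹ ≤ Q)
    (hNY : ((L * (Xg p σ.a).card : ℕ) : ℝ) ≤ NY) :
    (((univ : Finset Ω).filter (fun r => ∃ y0 < Y0,
      m < ((Finset.Ico y0 (y0 + L)).filter
        (fun z => ∃ x ∈ Xg p σ.a, Res p σ (ρ r) z x)).card)).card : ℝ) ≤
      Fintype.card Ω * (Y0 * (NY * Q ^ m)) := by
  have hpre0 : σ.pre f0 = ∅ := hN f0 h0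
  have hsub : ((univ : Finset Ω).filter (fun r => ∃ y0 < Y0,
      m < ((Finset.Ico y0 (y0 + L)).filter
        (fun z => ∃ x ∈ Xg p σ.a, Res p σ (ρ r) z x)).card)) ⊆
      (range Y0).biUnion (fun y0 => (univ : Finset Ω).filter (fun r => ∃ T ⊆ Y1 p σ.a y0 L,
        T.card = m + 1 ∧ (∀ q ∈ T, Res p σ (ρ r) q.1 q.2) ∧
        Set.InjOn (fun q : ℕ × (ι → ℕ) => q.2 f0) (T : Set (ℕ × (ι → ℕ))))) := by
    intro r hr
    rw [Finset.mem_filter] at hr
    obtain ⟨_, y0, hy0, hc⟩ := hr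
    rw [Finset.mem_biUnion]
    exact ⟨y0, Finset.mem_range.2 hy0, Finset.mem_filter.2 ⟨Finset.mem_univ _,
      hits_of_card hpre0 hL hc⟩⟩
  have h1 : ∀ y0, (((univ : Finset Ω).filter (fun r => ∃ T ⊆ Y1 p σ.a y0 L,
        T.card = m + 1 ∧ (∀ q ∈ T, Res p σ (ρ r) q.1 q.2) ∧
        Set.InjOn (fun q : ℕ × (ι → ℕ) => q.2 f0) (T : Set (ℕ × (ι → ℕ))))).card : ℝ) ≤
      Fintype.card Ω * (NY * Q ^ m) := by
    intro y0
    refine (prob1 hI p σ hkey hM hlt f0 N F hN hF (Y1 p σ.a y0 L)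
      (fun q hq => (mem_Y1.1 hq).2) Q ?_ m).trans ?_
    · intro q _
      refine le_trans (mul_le_mul_of_nonneg_right ?_ (Finset.prod_nonneg fun f _ => by positivity))
        hQ
      exact_mod_cast card_Cp hp hp2 h0 hL q
    · apply mul_le_mul_of_nonneg_left _ (Nat.cast_nonneg _)
      apply mul_le_mul_of_nonneg_right _ (pow_nonneg hQ0 _)
      refine le_trans (le_of_eq ?_) hNY
      unfold Y1
      rw [Finset.card_product, Nat.card_Ico, Nat.add_sub_cancel_left]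
  calc _ ≤ (((range Y0).biUnion (fun y0 => (univ : Finset Ω).filter (fun r =>
        ∃ T ⊆ Y1 p σ.a y0 L, T.card = m + 1 ∧ (∀ q ∈ T, Res p σ (ρ r) q.1 q.2) ∧
        Set.InjOn (fun q : ℕ × (ι → ℕ) => q.2 f0) (T : Set (ℕ × (ι → ℕ)))))).card : ℝ) :=
        Nat.cast_le.2 (Finset.card_le_card hsub)
    _ ≤ ∑ y0 ∈ range Y0, (((univ : Finset Ω).filter (fun r =>
        ∃ T ⊆ Y1 p σ.a y0 L, T.card = m + 1 ∧ (∀ q ∈ T, Res p σ (ρ r) q.1 q.2) ∧
        Set.InjOn (fun q : ℕ × (ι → ℕ) => q.2 f0) (T : Set (ℕ × (ι → ℕ))))).card : ℝ) := by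
        exact_mod_cast Finset.card_biUnion_le
    _ ≤ ∑ _y0 ∈ range Y0, Fintype.card Ω * (NY * Q ^ m) :=
        Finset.sum_le_sum fun y0 _ => h1 y0
    _ = Fintype.card Ω * (Y0 * (NY * Q ^ m)) := by
        rw [Finset.sum_const, Finset.card_range, nsmul_eq_mul]
        ring

end Pool.Agent.Helper53.T5
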